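import Pool.Agent.H53.AL.Baer

/-!
# The power trick (helper6, note 6798 of MP_52f71e_al)

If `S` is a normal subset of a finite group and `[a, b]² = 1` for all `a`, `b` in `S`, then the same
holds for the powers; so if some `a` in `S` has even order there is a nontrivial normal 2-subgroup.
-/

set_option autoImplicit false

namespace Pool.Agent.H19.E2

open Subgroup

section

variable {M : Type*} [Group M]

/-- the conjugates `a^i d a^-i` -/
private def D (a d : M) (i : ℕ) : M := a ^ i * d * (a ^ i)⁻¹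

/-- `D 0 * ... * D (j - 1)` -/
private def R (a d : M) : ℕ → M
  | 0 => 1
  | j + 1 => R a d j * D a d j

private theorem D_zero (a d : M) : D a d 0 = d := by
  unfold D
  simp

private theorem D_succ (a d : M) (i : ℕ) : D a d (i + 1) = a * D a d i * a⁻¹ := by
  unfold D
  rw [pow_succ']
  group

private theorem D_add (a d : M) (i m : ℕ) : D a d (i + m) = a ^ i * D a d m * (a ^ i)⁻¹ := by
  unfold D
  rw [pow_add]
  group

private theorem D_sq (a d : M) (hd : d * d = 1) (i : ℕ) : D a d i * D a d i = 1 := by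
  unfold D
  calc a ^ i * d * (a ^ i)⁻¹ * (a ^ i * d * (a ^ i)⁻¹) = a ^ i * (d * d) * (a ^ i)⁻¹ := by group
    _ = 1 := by rw [hd]; group

private theorem D_inv (a d : M) (hd : d * d = 1) (i : ℕ) : (D a d i)⁻¹ = D a d i := by
  rw [inv_eq_iff_mul_eq_one]
  exact D_sq a d hd i

private theorem aR (a d : M) (hd : d * d = 1) (j : ℕ) :
    a * R a d j * a⁻¹ = D a d 0 * R a d (j + 1) := by
  induction j with
  | zero =>
    have h1 := D_sq a d hd 0
    simp only [R, one_mul, mul_one, mul_inv_cancel]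
    exact h1.symm
  | succ j ih =>
    have h1 : a * R a d (j + 1) * a⁻¹ = (a * R a d j * a⁻¹) * (a * D a d j * a⁻¹) := by
      simp only [R]
      group
    rw [h1, ih, ← D_succ]
    simp only [R, mul_assoc]

private theorem four (x y z w : M) (hx : x * x = 1) (hz : z * z = 1) (hy : y * y = 1)
    (hw : w * w = 1)
    (xy : Commute x y) (xz : Commute x z) (xw : Commute x w) (zy : Commute z y) (zw : Commute z w)
    (h : (x * y * z * w) ^ 2 = 1) : Commute y w := by
  have e1 : x * y * z * w = (x * z) * (y * w) := by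
    rw [mul_assoc x y z, ← zy.eq]
    group
  have c1 : Commute (x * z) (y * w) :=
    ((xy.mul_right xw).mul_left (zy.mul_right zw))
  have e2 : (x * z) ^ 2 = 1 := by
    rw [xz.mul_pow, sq, sq, hx, hz, mul_one]
  rw [e1, c1.mul_pow, e2, one_mul, sq] at h
  have h2 : y * w = (y * w)⁻¹ := eq_inv_of_mul_eq_one_left h
  have hyi : y⁻¹ = y := by rw [inv_eq_iff_mul_eq_one, hy]
  have hwi : w⁻¹ = w := by rw [inv_eq_iff_mul_eq_one, hw]
  rw [mul_inv_rev, hyi, hwi] at h2
  exact h2

private theorem D_comm (a g : M)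
    (ha : ∀ x : M, ((x * a * x⁻¹) * a * (x * a * x⁻¹)⁻¹ * a⁻¹) ^ 2 = 1)
    (hg : (g * a * g⁻¹ * a⁻¹) ^ 2 = 1) (n : ℕ) :
    Commute (D a (g * a * g⁻¹ * a⁻¹) 0) (D a (g * a * g⁻¹ * a⁻¹) n) := by
  obtain ⟨d, hd⟩ : ∃ d, d = g * a * g⁻¹ * a⁻¹ := ⟨_, rfl⟩
  rw [← hd] at hg ⊢
  have hdd : d * d = 1 := by rw [← sq]; exact hg
  have hga : g * a * g⁻¹ = d * a := by rw [hd]; group
  induction n using Nat.strong_induction_on with
  | _ n ih =>
    have hcc : ∀ i m : ℕ, m < n → Commute (D a d i) (D a d (i + m)) := by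
      intro i m hm
      have h1 := ih m hm
      have h2 : D a d i = a ^ i * D a d 0 * (a ^ i)⁻¹ := by
        rw [← D_add, add_zero]
      rw [h2, D_add]
      have h3 := h1.eq
      change a ^ i * D a d 0 * (a ^ i)⁻¹ * (a ^ i * D a d m * (a ^ i)⁻¹) =
        a ^ i * D a d m * (a ^ i)⁻¹ * (a ^ i * D a d 0 * (a ^ i)⁻¹)
      calc a ^ i * D a d 0 * (a ^ i)⁻¹ * (a ^ i * D a d m * (a ^ i)⁻¹) =
          a ^ i * (D a d 0 * D a d m) * (a ^ i)⁻¹ := by group
        _ = a ^ i * (D a d m * D a d 0) * (a ^ i)⁻¹ := by rw [h3]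
        _ = _ := by group
    rcases n with _ | n
    · exact Commute.refl _
    rcases n with _ | k
    · -- `d` and `a d a⁻¹`
      have h1 := ha g
      rw [hga] at h1
      have h2 : d * a * a * (d * a)⁻¹ * a⁻¹ = d * (a * d⁻¹ * a⁻¹) := by group
      have hdi : d⁻¹ = d := by rw [inv_eq_iff_mul_eq_one, hdd]
      rw [h2, hdi] at h1
      have h3 : D a d (0 + 1) = a * d * a⁻¹ := by rw [D_succ, D_zero]
      rw [D_zero]
      rw [h3]
      have h4 : (a * d * a⁻¹) * (a * d * a⁻¹) = 1 := by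
        calc (a * d * a⁻¹) * (a * d * a⁻¹) = a * (d * d) * a⁻¹ := by group
          _ = 1 := by rw [hdd]; group
      rw [sq] at h1
      have h5 : d * (a * d * a⁻¹) = (d * (a * d * a⁻¹))⁻¹ := eq_inv_of_mul_eq_one_left h1
      have h6 : (a * d * a⁻¹)⁻¹ = a * d * a⁻¹ := by rw [inv_eq_iff_mul_eq_one, h4]
      rw [mul_inv_rev, h6, hdi] at h5
      exact h5
    · -- step
      have hR : ∀ j, j ≤ k + 1 → Commute (R a d j) (D a d (k + 1)) := by
        intro j
        induction j with
        | zero => intro _; exact Commute.one_left _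
        | succ j ihj =>
          intro hj
          have h1 := ihj (by omega)
          have h2 : Commute (D a d j) (D a d (k + 1)) := by
            have := hcc j (k + 1 - j) (by omega)
            rwa [show j + (k + 1 - j) = k + 1 by omega] at this
          exact h1.mul_left h2
      have h1 := ha (R a d (k + 1))
      have hRD := hR (k + 1) le_rfl
      have e1 : R a d (k + 1) * a * (R a d (k + 1))⁻¹ = (D a d (k + 1) * D a d 0) * a := by
        have h2 : R a d (k + 1) * a * (R a d (k + 1))⁻¹ =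
            R a d (k + 1) * (a * R a d (k + 1) * a⁻¹)⁻¹ * a := by group
        rw [h2, aR a d hdd, mul_inv_rev, D_inv a d hdd]
        have h3 : R a d (k + 1 + 1) = R a d (k + 1) * D a d (k + 1) := rfl
        rw [h3, mul_inv_rev, D_inv a d hdd]
        have h4 := hRD.eq
        have h5 : D a d (k + 1) * (R a d (k + 1))⁻¹ = (R a d (k + 1))⁻¹ * D a d (k + 1) :=
          (hRD.inv_left.eq).symm
        rw [h5]
        group
      rw [e1] at h1
      have e2 : D a d (k + 1) * D a d 0 * a * a * (D a d (k + 1) * D a d 0 * a)⁻¹ * a⁻¹ =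
          D a d (k + 1) * D a d 0 * (a * (D a d 0)⁻¹ * a⁻¹) * (a * (D a d (k + 1))⁻¹ * a⁻¹) := by
        group
      rw [e2, D_inv a d hdd, D_inv a d hdd, ← D_succ, ← D_succ] at h1
      refine four _ _ _ _ (D_sq a d hdd (k + 1)) (D_sq a d hdd (0 + 1)) (D_sq a d hdd 0)
        (D_sq a d hdd (k + 1 + 1)) ?_ ?_ ?_ ?_ ?_ h1
      · have := hcc 0 (k + 1) (by omega)
        rw [zero_add] at this
        exact this.symm
      · rcases Nat.eq_zero_or_pos k with hk | hk
        · subst hk
          exact Commute.refl _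
        · have := hcc 1 k (by omega)
          rw [show 1 + k = k + 1 by omega] at this
          exact this.symm
      · have := hcc (k + 1) 1 (by omega)
        exact this
      · have := hcc 0 1 (by omega)
        exact this.symm
      · have := hcc 1 (k + 1) (by omega)
        rw [show 1 + (k + 1) = k + 1 + 1 by omega] at this
        exact this

/-- the power trick -/
theorem comm_pow (a g : M)
    (ha : ∀ x : M, ((x * a * x⁻¹) * a * (x * a * x⁻¹)⁻¹ * a⁻¹) ^ 2 = 1)
    (hg : (g * a * g⁻¹ * a⁻¹) ^ 2 = 1) (j : ℕ) :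
    (g * a ^ j * g⁻¹ * (a ^ j)⁻¹) ^ 2 = 1 := by
  have hD := D_comm a g ha hg
  obtain ⟨d, hd⟩ : ∃ d, d = g * a * g⁻¹ * a⁻¹ := ⟨_, rfl⟩
  rw [← hd] at hg hD
  have hdd : d * d = 1 := by rw [← sq]; exact hg
  have hga : g * a * g⁻¹ = d * a := by rw [hd]; group
  have hcc : ∀ i m : ℕ, Commute (D a d i) (D a d (i + m)) := by
    intro i m
    have h2 : D a d i = a ^ i * D a d 0 * (a ^ i)⁻¹ := by
      rw [← D_add, add_zero]
    rw [h2, D_add]
    have h3 := (hD m).eq
    change a ^ i * D a d 0 * (a ^ i)⁻¹ * (a ^ i * D a d m * (a ^ i)⁻¹) =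
      a ^ i * D a d m * (a ^ i)⁻¹ * (a ^ i * D a d 0 * (a ^ i)⁻¹)
    calc a ^ i * D a d 0 * (a ^ i)⁻¹ * (a ^ i * D a d m * (a ^ i)⁻¹) =
        a ^ i * (D a d 0 * D a d m) * (a ^ i)⁻¹ := by group
      _ = a ^ i * (D a d m * D a d 0) * (a ^ i)⁻¹ := by rw [h3]
      _ = _ := by group
  have hR : ∀ j k, j ≤ k → Commute (R a d j) (D a d k) := by
    intro j
    induction j with
    | zero => intro k _; exact Commute.one_left _
    | succ j ihj =>
      intro k hj
      have h1 := ihj k (by omega)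
      have h2 : Commute (D a d j) (D a d k) := by
        have := hcc j (k - j)
        rwa [show j + (k - j) = k by omega] at this
      exact h1.mul_left h2
  have hRR : ∀ j, R a d j * R a d j = 1 := by
    intro j
    induction j with
    | zero => exact one_mul _
    | succ j ihj =>
      have h1 := (hR j j le_rfl).eq
      change R a d j * D a d j * (R a d j * D a d j) = 1
      calc R a d j * D a d j * (R a d j * D a d j)
          = R a d j * (D a d j * R a d j) * D a d j := by group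
        _ = R a d j * (R a d j * D a d j) * D a d j := by rw [h1]
        _ = (R a d j * R a d j) * (D a d j * D a d j) := by group
        _ = 1 := by rw [ihj, D_sq a d hdd, one_mul]
  have hpow : ∀ j, (d * a) ^ j = R a d j * a ^ j := by
    intro j
    induction j with
    | zero => simp [R]
    | succ j ihj =>
      rw [pow_succ, ihj]
      change R a d j * a ^ j * (d * a) = R a d j * (a ^ j * d * (a ^ j)⁻¹) * a ^ (j + 1)
      rw [pow_succ]
      group
  have h1 : g * a ^ j * g⁻¹ = (g * a * g⁻¹) ^ j := by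
    rw [conj_pow]
  rw [h1, hga, hpow, mul_inv_cancel_right, sq, hRR]

/-- [x, y] has square one implies [y, x] has square one -/
theorem comm_sq_symm (x y : M) (h : (x * y * x⁻¹ * y⁻¹) ^ 2 = 1) :
    (y * x * y⁻¹ * x⁻¹) ^ 2 = 1 := by
  have h1 : (y * x * y⁻¹ * x⁻¹) ^ 2 = ((x * y * x⁻¹ * y⁻¹) ^ 2)⁻¹ := by
    rw [← inv_pow]
    congr 1
    group
  rw [h1, h, inv_one]

/-- two involutions with a product of 2-power order generate a 2-group -/
theorem two_group_pair (i i' : M) (hi : i * i = 1) (hi' : i' * i' = 1) (k : ℕ)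
    (h : (i' * i) ^ 2 ^ k = 1) : IsPGroup 2 (closure {i, i'} : Subgroup M) := by
  obtain ⟨z, hz⟩ : ∃ z, z = i' * i := ⟨_, rfl⟩
  rw [← hz] at h
  have hinv : i⁻¹ = i := by rw [inv_eq_iff_mul_eq_one, hi]
  have hinv' : i'⁻¹ = i' := by rw [inv_eq_iff_mul_eq_one, hi']
  have hiz : i * z * i⁻¹ = z⁻¹ := by
    rw [hz, mul_inv_rev, hinv, hinv']
    calc i * (i' * i) * i = i * i' * (i * i) := by group
      _ = i * i' := by rw [hi, mul_one]
  have hizm : ∀ m : ℤ, i * z ^ m = z ^ (-m) * i := by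
    intro m
    have h1 : i * z ^ m * i⁻¹ = z ^ (-m) := by
      rw [← conj_zpow, hiz, inv_zpow, zpow_neg]
    rw [← h1]
    group
  have hcl : ∀ w ∈ closure ({i, i'} : Set M), ∃ m : ℤ, w = z ^ m ∨ w = z ^ m * i := by
    intro w hw
    induction hw using closure_induction with
    | mem x hx =>
      rcases hx with rfl | hx
      · exact ⟨0, Or.inr (by rw [zpow_zero, one_mul])⟩
      · rw [Set.mem_singleton_iff] at hx
        refine ⟨1, Or.inr ?_⟩
        rw [hx, zpow_one, hz, mul_assoc, hi, mul_one]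
    | one => exact ⟨0, Or.inl (by rw [zpow_zero])⟩
    | mul x y _ _ hx hy =>
      obtain ⟨m, hm⟩ := hx
      obtain ⟨n, hn⟩ := hy
      rcases hm with rfl | rfl <;> rcases hn with rfl | rfl
      · exact ⟨m + n, Or.inl (by rw [zpow_add])⟩
      · exact ⟨m + n, Or.inr (by rw [zpow_add]; group)⟩
      · refine ⟨m - n, Or.inr ?_⟩
        rw [mul_assoc, hizm, ← mul_assoc, ← zpow_add, sub_eq_add_neg]
      · refine ⟨m - n, Or.inl ?_⟩
        calc z ^ m * i * (z ^ n * i) = z ^ m * (i * z ^ n) * i := by group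
          _ = z ^ m * z ^ (-n) * (i * i) := by rw [hizm]; group
          _ = z ^ (m - n) := by rw [hi, mul_one, ← zpow_add, sub_eq_add_neg]
    | inv x _ hx =>
      obtain ⟨m, hm⟩ := hx
      rcases hm with rfl | rfl
      · exact ⟨-m, Or.inl (by rw [zpow_neg])⟩
      · refine ⟨m, Or.inr ?_⟩
        rw [mul_inv_rev, hinv, ← zpow_neg, hizm, neg_neg]
  intro g
  obtain ⟨m, hm⟩ := hcl g g.2
  rcases hm with hm | hm
  · refine ⟨k, ?_⟩
    apply Subtype.ext
    rw [coe_pow, hm, ← zpow_natCast, ← zpow_mul, mul_comm m, zpow_mul, zpow_natCast, h, one_zpow]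
    rfl
  · refine ⟨1, ?_⟩
    apply Subtype.ext
    rw [coe_pow, hm, pow_one, sq]
    calc z ^ m * i * (z ^ m * i) = z ^ m * (i * z ^ m) * i := by group
      _ = z ^ m * z ^ (-m) * (i * i) := by rw [hizm]; group
      _ = 1 := by rw [hi, mul_one, ← zpow_add, add_neg_cancel, zpow_zero]

/-- **the power trick and Baer's theorem** -/
theorem exists_normal_two [Finite M] (S : Set M) (hS : ∀ a ∈ S, ∀ g : M, g * a * g⁻¹ ∈ S)
    (hc : ∀ a ∈ S, ∀ b ∈ S, (a * b * a⁻¹ * b⁻¹) ^ 2 = 1) (a : M) (ha : a ∈ S)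
    (ho : ¬ Odd (orderOf a)) : ∃ N : Subgroup M, N.Normal ∧ IsPGroup 2 N ∧ N ≠ ⊥ := by
  have hpw : ∀ b ∈ S, ∀ j k : ℕ, (b ^ k * a ^ j * (b ^ k)⁻¹ * (a ^ j)⁻¹) ^ 2 = 1 := by
    intro b hb j k
    have h1 := comm_pow a b (fun x => hc _ (hS a ha x) a ha) (hc b hb a ha) j
    have h2 := comm_pow b (a ^ j) (fun x => hc _ (hS b hb x) b hb) (comm_sq_symm _ _ h1) k
    exact comm_sq_symm _ _ h2
  have hpos : 0 < orderOf a := orderOf_pos a
  rw [Nat.not_odd_iff_even] at ho
  obtain ⟨n, hn⟩ := ho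
  have hn0 : 0 < n := by omega
  obtain ⟨i, hi⟩ : ∃ i, i = a ^ n := ⟨_, rfl⟩
  have hii : i * i = 1 := by
    rw [hi, ← pow_add, ← hn, pow_orderOf_eq_one]
  have hi1 : i ≠ 1 := by
    intro h1
    rw [hi] at h1
    have := orderOf_le_of_pow_eq_one hn0 h1
    omega
  have hinv : i⁻¹ = i := by rw [inv_eq_iff_mul_eq_one, hii]
  haveI : Fact (Nat.Prime 2) := ⟨Nat.prime_two⟩
  refine ⟨normalClosure {i}, inferInstance, ?_, ?_⟩
  · refine Pool.Agent.H53.AL.baer_pairs 2 i ?_
    intro g
    obtain ⟨i', hi'⟩ : ∃ i', i' = g * i * g⁻¹ := ⟨_, rfl⟩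
    rw [← hi']
    have hi'' : i' = (g * a * g⁻¹) ^ n := by rw [hi', hi, conj_pow]
    have hinv' : i'⁻¹ = i' := by
      rw [hi', mul_inv_rev, mul_inv_rev, inv_inv, hinv]
      group
    have hii' : i' * i' = 1 := by
      nth_rewrite 1 [← hinv']
      exact inv_mul_cancel _
    have h4 : (i' * i) ^ 4 = 1 := by
      have h1 := hpw (g * a * g⁻¹) (hS a ha g) n n
      rw [← hi, ← hi'', hinv, hinv'] at h1
      calc (i' * i) ^ 4 = (i' * i * i' * i) ^ 2 := by
            rw [show (4 : ℕ) = 2 * 2 by norm_num, pow_mul, sq (i' * i)]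
            simp only [mul_assoc]
        _ = 1 := h1
    exact two_group_pair i i' hii hii' 2 h4
  · intro h1
    have h2 : i ∈ normalClosure ({i} : Set M) := subset_normalClosure rfl
    rw [h1, mem_bot] at h2
    exact hi1 h2

end

end Pool.Agent.H19.E2
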