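import Pool.Agent.H17.E2.Ter
import Pool.Agent.H71.TP.Ter
import Pool.Agent.H76.ET.Def
import Pool.Agent.H4.FT.Start
import Pool.Agent.H4.Loop.Basic

/-!
# From a simple automorphic loop with `x x = e` to the structures `AE` and `ETern.ET`
-/

set_option autoImplicit false

namespace ALoop

open Equiv

variable {Q : Type*}

/-- a simple automorphic loop with `x x = e` is commutative and gives `AE` -/
theorem ae_of_loop (L R : Q → Perm Q) (e : Q) (hLR : ∀ x y, L x y = R y x)
    (he : ∀ x, L e x = x ∧ L x e = x)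
    (haut : ∀ g ∈ Subgroup.closure (Set.range L ∪ Set.range R), g e = e →
      ∀ x y, g (L x y) = L (g x) (g y))
    (hsimple : ∀ r : Q → Q → Prop, Equivalence r →
      (∀ a b c d, r a b → r c d → r (L a c) (L b d)) → (∀ a b, r a b → a = b) ∨ (∀ a b, r a b))
    (hexp : ∀ x, L x x = e) :
    AE (Subgroup.closure (Set.range L)) L e := by
  have memL' : ∀ x, L x ∈ Subgroup.closure (Set.range L ∪ Set.range R) :=
    fun x => Subgroup.subset_closure (Or.inl ⟨x, rfl⟩)
  have memR' : ∀ x, R x ∈ Subgroup.closure (Set.range L ∪ Set.range R) :=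
    fun x => Subgroup.subset_closure (Or.inr ⟨x, rfl⟩)
  have Re : ∀ x, R x e = x := fun x => by rw [← hLR]; exact (he x).1
  have equi : ∀ g ∈ Subgroup.closure (Set.range L ∪ Set.range R), g e = e →
      ∀ x, g * L x * g⁻¹ = L (g x) := by
    intro g hg hge x
    rw [mul_inv_eq_iff_eq_mul]
    ext y
    exact haut g hg hge x y
  -- flexible law
  have flex : ∀ x y, L x (L y x) = L (L x y) x := by
    intro x y
    have h1 : (R x)⁻¹ * L x ∈ Subgroup.closure (Set.range L ∪ Set.range R) :=
      Subgroup.mul_mem _ (Subgroup.inv_mem _ (memR' x)) (memL' x)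
    have h2 : ((R x)⁻¹ * L x) e = e := by
      rw [Perm.mul_apply, (he x).2, Perm.inv_eq_iff_eq, Re]
    have h3 : ((R x)⁻¹ * L x) x = x := by
      rw [Perm.mul_apply, Perm.inv_eq_iff_eq]
      exact hLR x x
    have h4 := equi _ h1 h2 x
    rw [h3, mul_inv_eq_iff_eq_mul] at h4
    have h5 : (R x)⁻¹ * L x = L x * (R x)⁻¹ := by
      have : (R x)⁻¹ * L x * L x = L x * (R x)⁻¹ * L x := by rw [h4]; group
      exact mul_right_cancel this
    have h6 : L x * R x = R x * L x := by
      calc L x * R x = R x * ((R x)⁻¹ * L x) * R x := by group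
        _ = R x * L x := by rw [h5]; group
    have h7 := congrArg (fun p : Perm Q => p y) h6
    simp only [Perm.mul_apply] at h7
    rw [← hLR, ← hLR] at h7
    exact h7
  have com : ∀ c p, L c p = L p c := by
    intro c p
    obtain ⟨x, hx⟩ : ∃ x, x = L c p := ⟨_, rfl⟩
    obtain ⟨y, hy⟩ : ∃ y, y = (L x)⁻¹ c := ⟨_, rfl⟩
    have hxy : L x y = c := by rw [hy, apply_inv']
    obtain ⟨φ, hφd⟩ : ∃ φ, φ = (L c)⁻¹ * (L x * L y) := ⟨_, rfl⟩
    have hφG : φ ∈ Subgroup.closure (Set.range L ∪ Set.range R) := by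
      rw [hφd]
      exact Subgroup.mul_mem _ (Subgroup.inv_mem _ (memL' c))
        (Subgroup.mul_mem _ (memL' x) (memL' y))
    have hφ : ∀ z, φ z = (L c)⁻¹ (L x (L y z)) := fun z => by rw [hφd]; rfl
    have hφe : φ e = e := by
      rw [hφ, (he y).2, hxy, Perm.inv_eq_iff_eq, (he c).2]
    have hφx : φ x = x := by
      rw [hφ, flex, hxy, inv_apply']
    have hφy : φ y = p := by
      rw [hφ, hexp, (he x).2, Perm.inv_eq_iff_eq, hx]
    have hφw : φ ((L y)⁻¹ x) = c := by
      rw [hφ, apply_inv', hexp, Perm.inv_eq_iff_eq, hexp]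
    have h1 := haut φ hφG hφe y ((L y)⁻¹ x)
    rw [apply_inv', hφy, hφw, hφx] at h1
    rw [← hx, h1]
  have hRL : R = L := by
    funext x
    ext y
    rw [← hLR, com]
  have hcl : Subgroup.closure (Set.range L ∪ Set.range R) = Subgroup.closure (Set.range L) := by
    rw [hRL, Set.union_self]
  rw [hcl] at equi
  refine ⟨fun x => Subgroup.subset_closure ⟨x, rfl⟩, fun x => (he x).2, hexp, com, equi, rfl, ?_⟩
  intro r hr hG'
  apply hsimple r hr
  intro a b c d hab hcd
  have h1 := hG' _ (Subgroup.subset_closure ⟨c, rfl⟩ : L c ∈ Subgroup.closure (Set.range L)) a b hab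
  rw [com c a, com c b] at h1
  exact hr.trans h1 (hG' _ (Subgroup.subset_closure ⟨b, rfl⟩) c d hcd)

namespace AE

variable {G : Subgroup (Perm Q)} {L : Q → Perm Q} {e : Q}

/-- the ternary operation `tt L p q r` is totally symmetric and distributive -/
theorem toTS (h : AE G L e) : TS (fun p q r : Q => tt L p q r) where
  c12 a b c := by
    change tt L a b c = tt L b a c
    rw [h.tt_symm]
  c23 a b c := h.tt_rot a b c
  id a b := by
    change tt L a a b = b
    rw [h.tt_self]; rfl
  inj a b c d hcd := (tt L a b).injective hcd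
  surj a b c := ⟨(tt L a b)⁻¹ c, ap_inv _ _⟩
  dist a b r s t := by
    change tt L a b (tt L r s t) = tt L (tt L a b r) (tt L a b s) (tt L a b t)
    rw [← h.tt_conj (h.mem_tt a b) r s, Perm.mul_apply, Perm.mul_apply, inv_ap]

/-- the order is a power of two -/
theorem card_two [Finite Q] (h : AE G L e) : ∃ n, Nat.card Q = 2 ^ n := by
  haveI : Nonempty Q := ⟨e⟩
  exact h.toTS.card

/-- the ternary structure of helper76 -/
theorem toET (h : AE G L e) : ETern.ET G (tt L) where
  mem := h.mem_tt
  equi g hg p q := h.tt_conj hg p q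
  symm := h.tt_symm
  comm := h.tt_rot
  diag := h.tt_self
  swap := h.tt_left

theorem gen_tt (h : AE G L e) : G = Subgroup.closure {g | ∃ p q, g = tt L p q} := by
  apply le_antisymm
  · rw [h.gen, Subgroup.closure_le]
    rintro _ ⟨x, rfl⟩
    exact Subgroup.subset_closure ⟨e, x, (h.tt_e x).symm⟩
  · rw [Subgroup.closure_le]
    rintro _ ⟨p, q, rfl⟩
    exact h.mem_tt p q

/-- if all `t p q` commute the loop is associative -/
theorem assoc_of_comm (h : AE G L e)
    (hc : ∀ p q r s, tt L p q * tt L r s = tt L r s * tt L p q) : Assoc L := by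
  intro x y z
  have h1 := hc e z e x
  rw [h.tt_e, h.tt_e] at h1
  have h2 := congrArg (fun p : Perm Q => p y) h1
  simp only [Perm.mul_apply] at h2
  rw [h.com (L x y) z, h2, h.com z y]

end AE

/-- from the raw form of a simple automorphic loop with `x x = e` to `AE` -/
theorem ae_of_op [Finite Q] (op : Q → Q → Q) (e : Q)
    (hid : ∀ x, op e x = x ∧ op x e = x)
    (hbij : ∀ a, Function.Bijective (op a) ∧ Function.Bijective (fun z => op z a))
    (hLxy : ∀ x y u v a b c, op (op x y) a = op x (op y u) → op (op x y) b = op x (op y v) →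
      op (op x y) c = op x (op y (op u v)) → c = op a b)
    (hRxy : ∀ x y u v a b c, op a (op x y) = op (op u x) y → op b (op x y) = op (op v x) y →
      op c (op x y) = op (op (op u v) x) y → c = op a b)
    (hTx : ∀ x u v a b c, op x a = op u x → op x b = op v x → op x c = op (op u v) x →
      c = op a b)
    (hsimple : ∀ r : Q → Q → Prop, Equivalence r →
      (∀ a b c d, r a b → r c d → r (op a c) (op b d)) → (∀ a b, r a b → a = b) ∨ (∀ a b, r a b))
    (hexp : ∀ y, op y y = e) :
    ∃ L : Q → Perm Q, (∀ a b, L a b = op a b) ∧ AE (Subgroup.closure (Set.range L)) L e :=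
  ⟨fun a => Equiv.ofBijective (op a) (hbij a).1, fun _ _ => rfl,
    ae_of_loop (fun a => Equiv.ofBijective (op a) (hbij a).1)
      (fun a => Equiv.ofBijective (fun z => op z a) (hbij a).2) e (fun _ _ => rfl) hid
      (fun g hg hge => Pool.Agent.H4.FT.inn_of_gens op e _ _ (fun _ _ => rfl) (fun _ _ => rfl) hid
        hLxy hRxy hTx g hg hge) hsimple hexp⟩

end ALoop
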