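import Pool.Agent.H19.E2.Pow
import Pool.Agent.H19.E2.Link

/-!
# All `t(p,q)²` have odd order (notes 6798, 6804, 6835 of MP_52f71e_al)
-/

set_option autoImplicit false

namespace ALoop

open Equiv

variable {Q : Type*} {G : Subgroup (Perm Q)} {L : Q → Perm Q} {e : Q}

/-- the group theory behind `u ~ A u A⁻¹` -/
private theorem k_one {M : Type*} [Group M] (A B C u m₀ m₁ : M)
    (hu : u * u = 1) (huAB : u = A * B * A⁻¹ * B⁻¹)
    (hum0 : u * m₀ = m₀ * u) (hm1 : m₁ = A * m₀ * A⁻¹)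
    (hm1' : m₁ = (A * A * u * A⁻¹ * A⁻¹) * u * m₀)
    (hC : C * ((A * u * A⁻¹ * u * C)⁻¹ * m₀) = ((A * u * A⁻¹ * u * C)⁻¹ * m₀) * C)
    (hB : B * ((A * u * A⁻¹ * u * B)⁻¹ * m₀) = ((A * u * A⁻¹ * u * B)⁻¹ * m₀) * B) :
    u * (A * u * A⁻¹) = (A * u * A⁻¹) * u := by
  have hui : u⁻¹ = u := by rw [inv_eq_iff_mul_eq_one, hu]
  obtain ⟨w, hw⟩ : ∃ w, w = A * u * A⁻¹ := ⟨_, rfl⟩
  have hww : w * w = 1 := by
    rw [hw]
    calc A * u * A⁻¹ * (A * u * A⁻¹) = A * (u * u) * A⁻¹ := by group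
      _ = 1 := by rw [hu]; group
  have hwi : w⁻¹ = w := by rw [inv_eq_iff_mul_eq_one, hww]
  rw [← hw] at hC hB ⊢
  obtain ⟨z, hz⟩ : ∃ z, z = u * w * m₀ := ⟨_, rfl⟩
  have hzB : B * z = z * B := by
    have e1 : (w * u * B)⁻¹ * m₀ = B⁻¹ * z := by
      rw [hz, mul_inv_rev, mul_inv_rev, hui, hwi]
      group
    rw [e1] at hB
    have h2 : z = B⁻¹ * z * B := by
      calc z = B * (B⁻¹ * z) := by group
        _ = B⁻¹ * z * B := hB
    calc B * z = B * (B⁻¹ * z * B) := by rw [← h2]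
      _ = z * B := by group
  have hm0 : m₀ = w * u * z := by
    rw [hz]
    calc m₀ = w * (u * u) * w * m₀ := by rw [hu, mul_one, hww, one_mul]
      _ = w * u * (u * w * m₀) := by group
  -- `A z A⁻¹ = k z`, `k = w u w u`
  have hAz : A * z * A⁻¹ = (w * u * w * u) * z := by
    have h1 : A * z * A⁻¹ = (A * u * A⁻¹) * (A * w * A⁻¹) * (A * m₀ * A⁻¹) := by
      rw [hz]; group
    have h2 : A * w * A⁻¹ = A * A * u * A⁻¹ * A⁻¹ := by
      rw [hw]; group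
    rw [h1, ← hm1, hm1', h2, ← hw]
    have h3 : (A * A * u * A⁻¹ * A⁻¹) * (A * A * u * A⁻¹ * A⁻¹) = 1 := by
      calc (A * A * u * A⁻¹ * A⁻¹) * (A * A * u * A⁻¹ * A⁻¹) = A * A * (u * u) * A⁻¹ * A⁻¹ := by
            group
        _ = 1 := by rw [hu]; group
    calc w * (A * A * u * A⁻¹ * A⁻¹) * ((A * A * u * A⁻¹ * A⁻¹) * u * m₀) =
        w * ((A * A * u * A⁻¹ * A⁻¹) * (A * A * u * A⁻¹ * A⁻¹)) * u * m₀ := by group
      _ = w * u * m₀ := by rw [h3, mul_one]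
      _ = w * u * (w * u * z) := by rw [← hm0]
      _ = (w * u * w * u) * z := by group
  obtain ⟨k, hk⟩ : ∃ k, k = w * u * w * u := ⟨_, rfl⟩
  rw [← hk] at hAz
  have hki : k⁻¹ = u * w * u * w := by
    rw [hk, mul_inv_rev, mul_inv_rev, mul_inv_rev, hui, hwi]
    group
  -- `z A z⁻¹ = k⁻¹ A`
  have hzA : z * A * z⁻¹ = k⁻¹ * A := by
    have h1 : A * z = k * z * A := by
      rw [← hAz]; group
    have h2 : z * A = k⁻¹ * (A * z) := by
      rw [h1]; group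
    rw [h2]; group
  have hzu : z * u * z⁻¹ = k⁻¹ * u := by
    rw [hki, hz, mul_inv_rev, mul_inv_rev, hui, hwi]
    calc u * w * m₀ * u * (m₀⁻¹ * (w * u)) = u * w * (m₀ * u) * m₀⁻¹ * w * u := by group
      _ = u * w * (u * m₀) * m₀⁻¹ * w * u := by rw [hum0]
      _ = u * w * u * w * u := by group
  have hzB' : z * B * z⁻¹ = B := by
    rw [← hzB]; group
  have h5 : z * u * z⁻¹ = k⁻¹ * (A * B * A⁻¹) * k * B⁻¹ := by
    have h6 : z * u * z⁻¹ = (z * A * z⁻¹) * (z * B * z⁻¹) * (z * A * z⁻¹)⁻¹ * (z * B * z⁻¹)⁻¹ := by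
      rw [huAB]; group
    rw [h6, hzA, hzB']
    group
  rw [hzu] at h5
  have h7 : k = 1 := by
    have h8 : u = A * B * A⁻¹ * k * B⁻¹ := by
      have := congrArg (fun y => k * y) h5
      calc u = k * (k⁻¹ * u) := by group
        _ = k * (k⁻¹ * (A * B * A⁻¹) * k * B⁻¹) := this
        _ = _ := by group
    rw [huAB] at h8
    have h9 : A * B * A⁻¹ * 1 * B⁻¹ = A * B * A⁻¹ * k * B⁻¹ := by
      rw [mul_one]; exact h8
    exact (mul_left_cancel (mul_right_cancel h9)).symm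
  rw [hk] at h7
  have h10 : w * u = (w * u)⁻¹ := eq_inv_of_mul_eq_one_left (by rw [← h7]; group)
  rw [mul_inv_rev, hui, hwi] at h10
  exact h10.symm

namespace AE

/-- `u` commutes with `A u A⁻¹`, `A = t(q,r)` -/
theorem uu_comm_A (h : AE G L e) (p q r : Q) :
    uu L p q r * (tt L q r * uu L p q r * (tt L q r)⁻¹) =
      (tt L q r * uu L p q r * (tt L q r)⁻¹) * uu L p q r := by
  obtain ⟨A, hA⟩ : ∃ A, A = tt L q r := ⟨_, rfl⟩
  obtain ⟨B, hB⟩ : ∃ B, B = tt L p r := ⟨_, rfl⟩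
  obtain ⟨C, hC⟩ : ∃ C, C = tt L p q := ⟨_, rfl⟩
  obtain ⟨s, hs⟩ : ∃ s, s = tt L p q r := ⟨_, rfl⟩
  obtain ⟨u, hu⟩ : ∃ u, u = uu L p q r := ⟨_, rfl⟩
  have hAG : A ∈ G := by rw [hA]; exact h.mem_tt _ _
  have huG : u ∈ G := by rw [hu]; exact h.mem_uu _ _ _
  have huu : u * u = 1 := by rw [hu]; exact h.uu_sq p q r
  have huu' : ∀ y, u (u y) = y := by
    intro y
    rw [← Perm.mul_apply, huu, Perm.one_apply]
  have hps : tt L p s = u * A := by rw [hs, hu, hA]; exact h.ps p q r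
  have hqs : tt L q s = u * B := by rw [hs, hu, hB]; exact h.qs p q r
  have hrs : tt L r s = u * C := by rw [hs, hu, hC]; exact h.rs p q r
  have hus : u s = s := by rw [hu, hs]; exact h.uu_s p q r
  have hAp : A p = s := by rw [hA, hs, h.tt_rot q r p, h.tt_symm q p]
  have hAq : A q = r := by rw [hA, h.tt_left]
  have hAr : A r = q := by rw [hA, h.tt_right]
  obtain ⟨s1, hs1⟩ : ∃ s1, s1 = A s := ⟨_, rfl⟩
  obtain ⟨s2, hs2⟩ : ∃ s2, s2 = A s1 := ⟨_, rfl⟩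
  -- `u p = s1`
  have hup : u p = s1 := by
    have h1 : (u * A) p = s := by rw [← hps, h.tt_left]
    rw [Perm.mul_apply, hAp] at h1
    have h2 : (u * B) r = u p := by
      rw [Perm.mul_apply, hB, h.tt_right]
    rw [← h2, ← hqs, h.tt_rot, hs1, hA]
  have hus1 : u s1 = p := by rw [← hup, huu']
  -- conjugates by `A`
  have c1 : tt L s s1 = A * u := by
    have h1 := h.tt_conj hAG p s
    rw [hAp, ← hs1, hps] at h1
    rw [← h1]; group
  have c2 : tt L s1 s2 = A * A * u * A⁻¹ := by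
    have h1 := h.tt_conj hAG s s1
    rw [← hs1, ← hs2, c1] at h1
    rw [← h1]; group
  have hf : tt L p s s1 = s2 := by
    rw [h.tt_rot p s s1, h.tt_symm p s1, h.tt_rot s1 p s, h.tt_symm s1 s, c1, Perm.mul_apply, hup, hs2]
  have hus2 : u s2 = s2 := by
    rw [hps, Perm.mul_apply, ← hs2] at hf
    exact hf
  obtain ⟨m0, hm0⟩ : ∃ m0, m0 = tt L p s1 := ⟨_, rfl⟩
  obtain ⟨m1, hm1⟩ : ∃ m1, m1 = tt L s s2 := ⟨_, rfl⟩
  have hum0 : u * m0 = m0 * u := by
    rw [hm0]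
    exact h.tt_cent' huG hup hus1
  have hm1A : m1 = A * m0 * A⁻¹ := by
    rw [hm1, hm0, h.tt_conj hAG, hAp, ← hs2]
  -- the involution of the triangle `(p, s, s1)`
  have hu' : uu L p s s1 = (A * A * u * A⁻¹ * A⁻¹) * u := by
    have h1 := h.rs p s s1
    rw [hf, c2, hps] at h1
    have hui : u⁻¹ = u := by rw [inv_eq_iff_mul_eq_one, huu]
    have h2 : uu L p s s1 = A * A * u * A⁻¹ * (u * A)⁻¹ := by
      rw [h1]; group
    rw [h2, mul_inv_rev, hui]
    group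
  have hm1' : m1 = (A * A * u * A⁻¹ * A⁻¹) * u * m0 := by
    have h1 := h.qs p s s1
    rw [hf, hu', ← hm0, ← hm1] at h1
    exact h1
  -- triangles `(s1, p, q)` and `(s1, p, r)`
  have hAA1 : (A * A) p = s1 := by rw [Perm.mul_apply, hAp, ← hs1]
  have hAAq : (A * A) q = q := by rw [Perm.mul_apply, hAq, hAr]
  have hAAr : (A * A) r = r := by rw [Perm.mul_apply, hAr, hAq]
  have hAC : A * C * A⁻¹ = u * C := by
    rw [hC, h.tt_conj hAG, hAp, hAq, h.tt_symm, hrs, hC]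
  have hAB : A * B * A⁻¹ = u * B := by
    rw [hB, h.tt_conj hAG, hAp, hAr, h.tt_symm, hqs, hB]
  have e3 : tt L s1 q = A * u * A⁻¹ * u * C := by
    have h1 := h.tt_conj (G.mul_mem hAG hAG) p q
    rw [hAA1, hAAq, ← hC] at h1
    rw [← h1]
    calc A * A * C * (A * A)⁻¹ = A * (A * C * A⁻¹) * A⁻¹ := by group
      _ = A * (u * C) * A⁻¹ := by rw [hAC]
      _ = A * u * A⁻¹ * (A * C * A⁻¹) := by group
      _ = _ := by rw [hAC]; group
  have e4 : tt L s1 r = A * u * A⁻¹ * u * B := by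
    have h1 := h.tt_conj (G.mul_mem hAG hAG) p r
    rw [hAA1, hAAr, ← hB] at h1
    rw [← h1]
    calc A * A * B * (A * A)⁻¹ = A * (A * B * A⁻¹) * A⁻¹ := by group
      _ = A * (u * B) * A⁻¹ := by rw [hAB]
      _ = A * u * A⁻¹ * (A * B * A⁻¹) := by group
      _ = _ := by rw [hAB]; group
  have p1 := h.prod_comm s1 p q
  rw [e3, h.tt_symm s1 p, ← hm0, ← hC] at p1
  have p2 := h.prod_comm s1 p r
  rw [e4, h.tt_symm s1 p, ← hm0, ← hB] at p2
  have huAB : u = A * B * A⁻¹ * B⁻¹ := by rw [hu, hA, hB]; rfl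
  rw [← hu, ← hA]
  exact k_one A B C u m0 m1 huu huAB hum0 hm1A hm1' p1.symm p2.symm

/-- `u_rpq = u_pqr` -/
theorem uu_cyc (h : AE G L e) (p q r : Q) : uu L r p q = uu L p q r := by
  rw [h.uu_eq2 r p q, ← h.uu_inv p q r]
  unfold uu
  rw [h.tt_symm r p, h.tt_symm r q]
  group

/-- `u` commutes with `C u C⁻¹`, `C = t(p,q)` -/
theorem uu_comm_C (h : AE G L e) (p q r : Q) :
    uu L p q r * (tt L p q * uu L p q r * (tt L p q)⁻¹) =
      (tt L p q * uu L p q r * (tt L p q)⁻¹) * uu L p q r := by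
  have h1 := h.uu_comm_A r p q
  rw [h.uu_cyc] at h1
  exact h1

/-- `[t(p,q)², t(p,r)] = v`, `v² = 1` -/
theorem comm_v (h : AE G L e) (p q r : Q) :
    ∃ v : Perm Q, v * v = 1 ∧
      (tt L p q * tt L p q) * tt L p r * (tt L p q * tt L p q)⁻¹ = v * tt L p r := by
  obtain ⟨C, hC⟩ : ∃ C, C = tt L p q := ⟨_, rfl⟩
  obtain ⟨B, hB⟩ : ∃ B, B = tt L p r := ⟨_, rfl⟩
  obtain ⟨u, hu⟩ : ∃ u, u = uu L p q r := ⟨_, rfl⟩
  have huu : u * u = 1 := by rw [hu]; exact h.uu_sq p q r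
  have hcc := h.uu_comm_C p q r
  have h1 := h.uu_eq2 p q r
  rw [← hu, ← hC] at hcc
  rw [← hu, ← hC, ← hB] at h1
  rw [← hC, ← hB]
  have hCB : C * B * C⁻¹ = u * B := by rw [h1]; group
  refine ⟨(C * u * C⁻¹) * u, ?_, ?_⟩
  · calc (C * u * C⁻¹) * u * ((C * u * C⁻¹) * u) = (C * u * C⁻¹) * (u * (C * u * C⁻¹)) * u := by
          group
      _ = (C * u * C⁻¹) * ((C * u * C⁻¹) * u) * u := by rw [hcc]
      _ = C * (u * u) * C⁻¹ * (u * u) := by group
      _ = 1 := by rw [huu]; group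
  · calc C * C * B * (C * C)⁻¹ = C * (C * B * C⁻¹) * C⁻¹ := by group
      _ = C * (u * B) * C⁻¹ := by rw [hCB]
      _ = (C * u * C⁻¹) * (C * B * C⁻¹) := by group
      _ = _ := by rw [hCB]; group

/-- `[t(p,q)², t(p,r)²]² = 1` -/
theorem lam_comm (h : AE G L e) (p q r : Q) :
    ((tt L p q * tt L p q) * (tt L p r * tt L p r) * (tt L p q * tt L p q)⁻¹ *
      (tt L p r * tt L p r)⁻¹) ^ 2 = 1 := by
  obtain ⟨v, hv, hvB⟩ := h.comm_v p q r
  have hCG : tt L p q * tt L p q ∈ G := G.mul_mem (h.mem_tt _ _) (h.mem_tt _ _)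
  have hp : (tt L p q * tt L p q) p = p := by
    rw [Perm.mul_apply, h.tt_left, h.tt_right]
  have h1 := h.tt_conj hCG p r
  rw [hp, hvB] at h1
  have h2 := h.uu_eq2 p ((tt L p q * tt L p q) r) r
  have h3 := h.uu_sq p ((tt L p q * tt L p q) r) r
  rw [h2, ← h1] at h3
  obtain ⟨B, hB⟩ : ∃ B, B = tt L p r := ⟨_, rfl⟩
  obtain ⟨C, hC⟩ : ∃ C, C = tt L p q * tt L p q := ⟨_, rfl⟩
  rw [← hB] at h3 hvB ⊢
  rw [← hC] at hvB ⊢
  have hvi : v⁻¹ = v := by rw [inv_eq_iff_mul_eq_one, hv]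
  have h4 : v * B * B * (v * B)⁻¹ * B⁻¹ = v * B * v * B⁻¹ := by
    rw [mul_inv_rev, hvi]; group
  have h5 : C * (B * B) * C⁻¹ * (B * B)⁻¹ = v * B * v * B⁻¹ := by
    have h6 : C * (B * B) * C⁻¹ = (C * B * C⁻¹) * (C * B * C⁻¹) := by group
    rw [h6, hvB]; group
  rw [h4] at h3
  rw [h5, pow_two, h3]

/-- the stabiliser of `e` has no normal 2-subgroup `≠ 1` -/
theorem stab_core [Finite Q] (h : AE G L e) (K : Subgroup (Perm Q))
    (hK : ∀ k ∈ K, k ∈ G ∧ k e = e) (hn : ∀ g ∈ G, g e = e → ∀ k ∈ K, g * k * g⁻¹ ∈ K)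
    (h2 : IsPGroup 2 K) : K = ⊥ := by
  classical
  by_contra hne
  obtain ⟨n, hcard⟩ := h.card_two
  have hn0 : n ≠ 0 := by
    rintro rfl
    apply hne
    rw [pow_zero] at hcard
    have hsub : Subsingleton Q := (Nat.card_eq_one_iff_unique.1 hcard).1
    rw [Subgroup.eq_bot_iff_forall]
    intro k _
    ext y
    exact Subsingleton.elim _ _
  have hdvd : 2 ∣ Nat.card Q := by
    rw [hcard]
    exact dvd_pow_self 2 hn0
  haveI : Fact (Nat.Prime 2) := ⟨Nat.prime_two⟩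
  have hef : e ∈ MulAction.fixedPoints K Q := by
    intro k
    exact (hK k k.2).2
  obtain ⟨x, hx, hxe⟩ := h2.exists_fixed_point_of_prime_dvd_card_of_fixed_point Q hdvd hef
  have hx' : ∀ k ∈ K, k x = x := fun k hk => hx ⟨k, hk⟩
  -- conjugates of `K`
  have key : ∀ g ∈ G, ∀ a : Q, ∀ k : Perm Q,
      ((L (g a))⁻¹ * k * L (g a) ∈ K ↔ (L a)⁻¹ * (g⁻¹ * k * g) * L a ∈ K) := by
    intro g hg a k
    obtain ⟨t, ht⟩ : ∃ t, t = (L (g a))⁻¹ * g * L a := ⟨_, rfl⟩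
    have htG : t ∈ G := by
      rw [ht]
      exact G.mul_mem (G.mul_mem (G.inv_mem (h.memL _)) hg) (h.memL _)
    have hte : t e = e := by
      rw [ht, Perm.mul_apply, Perm.mul_apply, h.Le, Perm.inv_eq_iff_eq, h.Le]
    have htie : t⁻¹ e = e := by rw [Perm.inv_eq_iff_eq, hte]
    have e1 : (L a)⁻¹ * (g⁻¹ * k * g) * L a = t⁻¹ * ((L (g a))⁻¹ * k * L (g a)) * t⁻¹⁻¹ := by
      rw [ht]; group
    constructor
    · intro hk
      rw [e1]
      exact hn _ (G.inv_mem htG) htie _ hk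
    · intro hk
      have h3 := hn t htG hte _ hk
      rw [e1] at h3
      have e2 : t * (t⁻¹ * ((L (g a))⁻¹ * k * L (g a)) * t⁻¹⁻¹) * t⁻¹ =
          (L (g a))⁻¹ * k * L (g a) := by group
      rw [e2] at h3
      exact h3
  rcases h.prim (fun a b => ∀ k : Perm Q, (L a)⁻¹ * k * L a ∈ K ↔ (L b)⁻¹ * k * L b ∈ K)
    ⟨fun a k => Iff.rfl, fun hab k => (hab k).symm, fun hab hbc k => (hab k).trans (hbc k)⟩
    (fun g hg a b hab k => by
      rw [key g hg a k, key g hg b k]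
      exact hab _) with h3 | h3
  · -- `e` and `x` are equivalent
    apply hxe
    apply h3
    intro k
    have hLe1 : L e = 1 := h.Le1
    rw [hLe1, inv_one, one_mul, mul_one]
    have hcomm : ∀ k' ∈ K, k' * L x = L x * k' := by
      intro k' hk'
      have h4 := h.equi k' (hK k' hk').1 (hK k' hk').2 x
      rw [hx' k' hk', mul_inv_eq_iff_eq_mul] at h4
      exact h4
    constructor
    · intro hk
      have h4 : (L x)⁻¹ * k * L x = k := by
        rw [mul_assoc, hcomm k hk]; group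
      rw [h4]; exact hk
    · intro hk
      have h4 := hcomm _ hk
      have h5 : (L x)⁻¹ * k * L x = k := by
        have h6 : (L x)⁻¹ * k * L x * L x = k * L x := by
          rw [h4]; group
        exact mul_right_cancel h6
      rw [← h5]; exact hk
  · -- `K` fixes everything
    apply hne
    rw [Subgroup.eq_bot_iff_forall]
    intro k hk
    ext y
    have h4 := (h3 e y k).1 (by
      rw [h.Le1, inv_one, one_mul, mul_one]; exact hk)
    have h5 := (hK _ h4).2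
    rw [Perm.mul_apply, Perm.mul_apply, h.Le, Perm.inv_eq_iff_eq, h.Le] at h5
    rw [h5]; rfl

/-- **all `L_x²` have odd order** -/
theorem lam_odd' [Finite Q] (h : AE G L e) (x : Q) : Odd (orderOf (L x * L x)) := by
  classical
  by_contra hodd
  obtain ⟨M, hM⟩ : ∃ M : Subgroup (Perm Q), M = G ⊓ MulAction.stabilizer (Perm Q) e := ⟨_, rfl⟩
  have hmem : ∀ g : Perm Q, g ∈ M ↔ g ∈ G ∧ g e = e := by
    intro g
    rw [hM, Subgroup.mem_inf, MulAction.mem_stabilizer_iff]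
    rfl
  have hlam : ∀ y, L y * L y ∈ M := by
    intro y
    rw [hmem]
    refine ⟨G.mul_mem (h.memL y) (h.memL y), ?_⟩
    rw [Perm.mul_apply, h.Le, h.sq]
  obtain ⟨N, hN1, hN2, hN3⟩ := Pool.Agent.H19.E2.exists_normal_two (M := M)
    {a : M | ∃ y, (a : Perm Q) = L y * L y} (by
      rintro a ⟨y, hy⟩ g
      refine ⟨(g : Perm Q) y, ?_⟩
      have hg := (hmem g).1 g.2
      have h1 := h.equi g hg.1 hg.2 y
      change (g : Perm Q) * (a : Perm Q) * (g : Perm Q)⁻¹ = _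
      rw [hy, ← h1]
      group) (by
      rintro a ⟨y, hy⟩ b ⟨z, hz⟩
      apply Subtype.ext
      change ((a : Perm Q) * (b : Perm Q) * (a : Perm Q)⁻¹ * (b : Perm Q)⁻¹) ^ 2 = 1
      rw [hy, hz]
      have h1 := h.lam_comm e y z
      rw [h.tt_e, h.tt_e] at h1
      exact h1) ⟨L x * L x, hlam x⟩ ⟨x, rfl⟩ (by
      rw [Subgroup.orderOf_mk]
      exact hodd)
  apply hN3
  have hbot : N.map M.subtype = ⊥ := by
    apply h.stab_core
    · rintro _ ⟨k, _, rfl⟩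
      exact (hmem _).1 k.2
    · rintro g hg hge _ ⟨k, hk, rfl⟩
      refine ⟨⟨g, (hmem g).2 ⟨hg, hge⟩⟩ * k * ⟨g, (hmem g).2 ⟨hg, hge⟩⟩⁻¹, hN1.conj_mem k hk _, rfl⟩
    · exact hN2.map _
  rw [Subgroup.eq_bot_iff_forall] at hbot ⊢
  intro k hk
  have := hbot (k : Perm Q) ⟨k, hk, rfl⟩
  exact Subtype.ext this

/-- **all `t(a,b)²` have odd order** -/
theorem lam_odd [Finite Q] (h : AE G L e) (a b : Q) : Odd (orderOf (tt L a b * tt L a b)) := by
  have h1 := h.lam_odd' ((L a)⁻¹ b)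
  have h2 : tt L a b * tt L a b =
      L a * (L ((L a)⁻¹ b) * L ((L a)⁻¹ b)) * (L a)⁻¹ := by
    unfold tt; group
  have h3 : orderOf (tt L a b * tt L a b) = orderOf (L ((L a)⁻¹ b) * L ((L a)⁻¹ b)) := by
    rw [h2]
    have := orderOf_injective (MulAut.conj (L a)).toMonoidHom (MulAut.conj (L a)).injective
      (L ((L a)⁻¹ b) * L ((L a)⁻¹ b))
    rw [← this]
    rfl
  rw [h3]
  exact h1

end AE

end ALoop
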